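import Pool.Agent.N352.PJ.Loc

set_option autoImplicit false

/-!
Project PJ (helper352), part E1 (helper427): good reduction, even valuations.
-/

open Polynomial

namespace Pool.Agent.N427.PJ

open Pool.Agent.N352.PJ

variable {E : Type} [Field E]

/-- the resultant as a product over the roots -/
lemma nrm (w : Valuation (AlgebraicClosure E) NNReal) (u p : E[X]) (hu : u.Monic) :
    ((u.map (algebraMap E (AlgebraicClosure E))).roots.map fun x => w (aeval x p)).prod =
      w (ac (resultant u p)) := by
  have h := resultant_eq_prod_eval (u.map (algebraMap E (AlgebraicClosure E)))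
    (p.map (algebraMap E (AlgebraicClosure E))) p.natDegree natDegree_map_le (IsAlgClosed.splits _)
  rw [natDegree_map, resultant_map_map, (hu.map _).leadingCoeff, one_pow, one_mul] at h
  unfold ac
  rw [h, map_multiset_prod, Multiset.map_map]
  congr 1
  refine Multiset.map_congr rfl fun x _ => ?_
  rw [Function.comp_apply, eval_map_algebraMap]

/-- conjugate roots -/
lemma cj (w : Valuation (AlgebraicClosure E) NNReal)
    (hw : ∀ (σ : AlgebraicClosure E ≃ₐ[E] AlgebraicClosure E) (x : AlgebraicClosure E), w (σ x) = w x)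
    {u : E[X]} (hu : u.Monic) (hi : Irreducible u) {x x' : AlgebraicClosure E} (hx : aeval x u = 0)
    (hx' : aeval x' u = 0) (p : E[X]) : w (aeval x' p) = w (aeval x p) := by
  have h1 : minpoly E x = u := (minpoly.eq_of_irreducible_of_monic hi hx hu).symm
  have h2 : minpoly E x' = u := (minpoly.eq_of_irreducible_of_monic hi hx' hu).symm
  have h3 : IsConjRoot E x x' := by
    rw [isConjRoot_def, h1, h2]
  obtain ⟨σ, hσ⟩ := isConjRoot_iff_exists_algEquiv.mp h3
  have h4 : aeval x p = σ (aeval x' p) := by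
    rw [← hσ]; exact aeval_algHom_apply σ x' p
  rw [h4, hw]

/-- the value of the resultant for an irreducible polynomial -/
lemma nrm2 (w : Valuation (AlgebraicClosure E) NNReal)
    (hw : ∀ (σ : AlgebraicClosure E ≃ₐ[E] AlgebraicClosure E) (x : AlgebraicClosure E), w (σ x) = w x)
    {u : E[X]} (hu : u.Monic) (hi : Irreducible u) {x : AlgebraicClosure E} (hx : aeval x u = 0)
    (p : E[X]) : w (ac (resultant u p)) = w (aeval x p) ^ u.natDegree := by
  rw [← nrm w u p hu]
  have h1 : ∀ y ∈ (u.map (algebraMap E (AlgebraicClosure E))).roots, w (aeval y p) = w (aeval x p) := by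
    intro y hy
    refine cj w hw hu hi hx ?_ p
    rw [mem_roots (hu.map _).ne_zero, IsRoot.def, eval_map_algebraMap] at hy
    exact hy
  rw [Multiset.map_congr rfl h1, Multiset.map_const', Multiset.prod_replicate]
  congr 1
  rw [← (IsAlgClosed.splits (u.map (algebraMap E (AlgebraicClosure E)))).natDegree_eq_card_roots, natDegree_map]

/-- the expansion to second order -/
lemma expand (w : Valuation (AlgebraicClosure E) NNReal) (F : (AlgebraicClosure E)[X])
    (hF : ∀ i, w (F.coeff i) ≤ 1) (a b : AlgebraicClosure E) (ha : w a ≤ 1) (hb : w b ≤ 1) :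
    ∃ k, w k ≤ 1 ∧ F.eval (a + b) = F.eval a + (derivative F).eval a * b + k * b ^ 2 := by
  have hF2 : (↑F.coeffs : Set (AlgebraicClosure E)) ⊆ (w.integer : Set (AlgebraicClosure E)) := by
    intro y hy
    rw [Finset.mem_coe, mem_coeffs_iff] at hy
    obtain ⟨n, _, rfl⟩ := hy
    exact hF n
  set G := F.toSubring w.integer hF2 with hG
  have hGF : G.map w.integer.subtype = F := map_toSubring F w.integer hF2
  obtain ⟨k, hk⟩ := G.binomExpansion ⟨a, ha⟩ ⟨b, hb⟩
  refine ⟨(k : AlgebraicClosure E), k.2, ?_⟩
  have e := congrArg w.integer.subtype hk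
  have ev : ∀ (H : w.integer[X]) (y : w.integer), w.integer.subtype (H.eval y) =
      (H.map w.integer.subtype).eval (w.integer.subtype y) := by
    intro H y
    rw [eval_map, eval₂_hom]
  rw [map_add, map_add, map_mul, map_mul, map_pow, ev, ev, ev, ← derivative_map, hGF, map_add] at e
  exact e

/-- a monic integral polynomial at a large element -/
lemma big (w : Valuation (AlgebraicClosure E) NNReal) (F : (AlgebraicClosure E)[X]) (hm : F.Monic)
    (hF : ∀ i, w (F.coeff i) ≤ 1) (x : AlgebraicClosure E) (hx : 1 < w x) :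
    w (F.eval x) = w x ^ F.natDegree := by
  rw [eval_eq_sum_range, Finset.sum_range_succ, hm.coeff_natDegree, one_mul, ← map_pow]
  refine Valuation.map_add_eq_of_lt_right w ?_
  have h0 : (0 : NNReal) < w (x ^ F.natDegree) := by
    rw [map_pow]; exact pow_pos (lt_trans one_pos hx) _
  refine Valuation.map_sum_lt w h0.ne' fun i hi => ?_
  rw [Finset.mem_range] at hi
  rw [map_mul, map_pow, map_pow]
  calc w (F.coeff i) * w x ^ i ≤ 1 * w x ^ i := mul_le_mul_left (hF i) _
    _ = w x ^ i := one_mul _
    _ < w x ^ F.natDegree := pow_lt_pow_right₀ hx hi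

/-- the irreducible case -/
lemma irr (w : Valuation (AlgebraicClosure E) NNReal)
    (hw : ∀ (σ : AlgebraicClosure E ≃ₐ[E] AlgebraicClosure E) (x : AlgebraicClosure E), w (σ x) = w x)
    (f u v : E[X]) (θ : E) (hf : f.Monic) (hodd : Odd f.natDegree) (hint : ∀ i, w (ac (f.coeff i)) ≤ 1)
    (hθ : w (ac θ) ≤ 1) (hfθ : f.eval θ = 0) (hd : w (ac ((derivative f).eval θ)) = 1) (hu : u.Monic)
    (hc : IsCoprime u f) (huv : u ∣ v ^ 2 - f) (hi : Irreducible u) :
    ∃ y : E, y ≠ 0 ∧ w (ac (u.eval θ)) = w (ac y) ^ 2 := by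
  obtain ⟨x, hx⟩ : ∃ x : AlgebraicClosure E, aeval x u = 0 :=
    IsAlgClosed.exists_aeval_eq_zero _ u (degree_pos_of_irreducible hi).ne'
  have hfx : aeval x f ≠ 0 := by
    intro h
    obtain ⟨a, b, hab⟩ := hc
    have := congrArg (aeval x) hab
    rw [map_add, map_mul, map_mul, hx, h, mul_zero, mul_zero, add_zero, map_one] at this
    exact zero_ne_one this
  have hvf : (aeval x v) ^ 2 = aeval x f := by
    obtain ⟨q, hq⟩ := huv
    have := congrArg (aeval x) hq
    rw [map_sub, map_pow, map_mul, hx, zero_mul, sub_eq_zero] at this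
    exact this
  have hvx : aeval x v ≠ 0 := by
    intro h
    rw [h] at hvf
    exact hfx (by rw [← hvf]; simp)
  set F := f.map (algebraMap E (AlgebraicClosure E)) with hF
  have hFm : F.Monic := hf.map _
  have hFd : F.natDegree = f.natDegree := natDegree_map _
  have hFc : ∀ i, w (F.coeff i) ≤ 1 := fun i => by rw [hF, coeff_map]; exact hint i
  have hFe : ∀ y, F.eval y = aeval y f := fun y => by rw [hF, eval_map_algebraMap]
  -- the value of u at θ
  have hut : w (ac (u.eval θ)) = w (x - ac θ) ^ u.natDegree := by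
    have h1 := nrm2 w hw hu hi hx (X - C θ)
    rw [map_sub, aeval_X, aeval_C] at h1
    rw [← h1]
    have h2 := resultant_X_sub_C_right u u.natDegree θ le_rfl
    rw [natDegree_X_sub_C, h2]
    unfold ac
    rw [map_mul, map_mul, map_pow, map_pow, map_neg, map_one, Valuation.map_neg, map_one, one_pow, one_mul]
  set ρ := w (x - ac θ) with hρ
  have hrv := nrm2 w hw hu hi hx v
  have hrv0 : resultant u v ≠ 0 := by
    intro h
    rw [h] at hrv
    have h2 : w (aeval x v) ^ u.natDegree = 0 := by rw [← hrv]; simp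
    exact (pow_ne_zero _ ((Valuation.ne_zero_iff w).mpr hvx)) h2
  have hwv : w (aeval x v) ^ 2 = w (F.eval x) := by
    rw [← map_pow, hvf, hFe]
  rcases lt_trichotomy ρ 1 with h | h | h
  · -- close to θ
    refine ⟨resultant u v, hrv0, ?_⟩
    rw [hut, hrv, ← pow_mul, mul_comm, pow_mul, hwv]
    congr 1
    obtain ⟨k, hk, hexp⟩ := expand w F hFc (ac θ) (x - ac θ) hθ h.le
    rw [add_sub_cancel] at hexp
    have e1 : F.eval (ac θ) = 0 := by
      rw [hF, ac, eval_map_algebraMap, aeval_algebraMap_apply, coe_aeval_eq_eval, hfθ, map_zero]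
    have e2 : w ((derivative F).eval (ac θ)) = 1 := by
      rw [hF, ac, derivative_map, eval_map_algebraMap, aeval_algebraMap_apply, coe_aeval_eq_eval]
      exact hd
    rw [hexp, e1, zero_add]
    rcases eq_or_ne ρ 0 with h0 | h0
    · exfalso
      rw [hρ] at h0
      have h5 : x - ac θ = 0 := (Valuation.zero_iff w).mp h0
      rw [h5] at hexp
      apply hfx
      rw [← hFe, hexp, e1]; ring
    · symm
      have e3 : w ((derivative F).eval (ac θ) * (x - ac θ)) = ρ := by
        rw [map_mul, e2, one_mul]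
      rw [← e3]
      refine Valuation.map_add_eq_of_lt_left w ?_
      rw [e3, map_mul, map_pow, ← hρ, sq]
      have h6 : 0 < ρ := pos_iff_ne_zero.mpr h0
      calc w k * (ρ * ρ) ≤ 1 * (ρ * ρ) := mul_le_mul_left hk _
        _ = ρ * ρ := one_mul _
        _ < ρ * 1 := mul_lt_mul_of_pos_left h h6
        _ = ρ := mul_one _
  · refine ⟨1, one_ne_zero, ?_⟩
    rw [hut, h, ac, map_one, map_one, one_pow, one_pow]
  · -- far from θ
    have hwx : w x = ρ := by
      have e1 : x = (x - ac θ) + ac θ := by ring
      rw [e1]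
      refine Valuation.map_add_eq_of_lt_left w ?_
      exact lt_of_le_of_lt hθ h
    have hbig := big w F hFm hFc x (by rw [hwx]; exact h)
    rw [hwx, hFd] at hbig
    obtain ⟨m, hm⟩ := hodd
    have hrx := nrm2 w hw hu hi hx X
    rw [aeval_X, hwx] at hrx
    have hρ0 : ρ ≠ 0 := (lt_trans one_pos h).ne'
    have hrx0 : resultant u X ≠ 0 := by
      intro h7
      rw [h7] at hrx
      have h2 : ρ ^ u.natDegree = 0 := by rw [← hrx]; simp
      exact (pow_ne_zero _ hρ0) h2
    refine ⟨resultant u v / resultant u X ^ m, div_ne_zero hrv0 (pow_ne_zero _ hrx0), ?_⟩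
    have e5 : ac (resultant u v / resultant u X ^ m) = ac (resultant u v) / ac (resultant u X) ^ m := by
      unfold ac; rw [map_div₀, map_pow]
    rw [e5, map_div₀, map_pow, hrv, hrx, hut, div_pow, eq_div_iff (by positivity)]
    have e6 : (w (aeval x v) ^ u.natDegree) ^ 2 = (w (aeval x v) ^ 2) ^ u.natDegree := by
      rw [← pow_mul, ← pow_mul, mul_comm]
    rw [e6, hwv, hbig, hm]
    ring

theorem e1 : S_E1 := by
  intro E _ w c hcv f u v θ hf hodd hint hθ hfθ hd hu hc huv
  have key : ∀ n : ℕ, ∀ u : E[X], u.natDegree ≤ n → u.Monic → IsCoprime u f → u ∣ v ^ 2 - f →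
      ∃ y : E, y ≠ 0 ∧ w (ac (u.eval θ)) = w (ac y) ^ 2 := by
    intro n
    induction n with
    | zero =>
      intro u hn hu _ _
      have : u = 1 := by
        have h0 : u.natDegree = 0 := by omega
        exact eq_one_of_monic_natDegree_zero hu h0
      refine ⟨1, one_ne_zero, ?_⟩
      rw [this, eval_one, ac, map_one, map_one, one_pow]
    | succ n ih =>
      intro u hn hu hc huv
      by_cases hun : IsUnit u
      · have : u = 1 := hu.eq_one_of_isUnit hun
        refine ⟨1, one_ne_zero, ?_⟩
        rw [this, eval_one, ac, map_one, map_one, one_pow]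
      · obtain ⟨q, hqm, hqi, u', rfl⟩ := exists_monic_irreducible_factor u hun
        have hu' : u'.Monic := hqm.of_mul_monic_left hu
        have hdeg : (q * u').natDegree = q.natDegree + u'.natDegree := natDegree_mul hqm.ne_zero hu'.ne_zero
        have hq1 : 0 < q.natDegree := hqi.natDegree_pos
        obtain ⟨y1, hy1, h1⟩ := irr w hcv.conj f q v θ hf hodd hint hθ hfθ hd hqm
          (IsCoprime.of_mul_left_left hc) ((dvd_mul_right q u').trans huv) hqi
        obtain ⟨y2, hy2, h2⟩ := ih u' (by omega) hu' (IsCoprime.of_mul_left_right hc)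
          ((dvd_mul_left u' q).trans huv)
        refine ⟨y1 * y2, mul_ne_zero hy1 hy2, ?_⟩
        have e1 : ac ((q * u').eval θ) = ac (q.eval θ) * ac (u'.eval θ) := by
          unfold ac; rw [eval_mul, map_mul]
        have e2 : ac (y1 * y2) = ac y1 * ac y2 := by unfold ac; rw [map_mul]
        rw [e1, e2, map_mul, map_mul, h1, h2, mul_pow]
  exact key u.natDegree u le_rfl hu hc huv

end Pool.Agent.N427.PJ
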